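import Mathlib

set_option autoImplicit false

/-!
# A group with property (T) which maps onto infinitely many `PSU₃(5ⁿ)`

Definitions and statements of the steps (project RK, frozen statement S01640).

`k` is a field with 25 elements, `H0 k = SU₃(k)` for the form `∑ x i * (y i) ^ 5`, and
`K i = SU₂` is the stabiliser of the basis vector `e i`. The group with property (T) is generated by
three copies of `SU₃(k)`, which meet pairwise in the groups `K i`; in rank one quotients they are the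
conjugates of `SU₃(k)` by `1`, `diag(u, 1, 1)`, `diag(u, u, 1)`, where `u` has norm one.
-/

namespace Pool.Agent.N993.RK

open Matrix

instance fact5 : Fact (Nat.Prime 5) := ⟨by norm_num⟩

/-- The algebraic closure of the field with five elements. -/
abbrev Om : Type := AlgebraicClosure (ZMod 5)

/-- `SL₃` -/
abbrev SL (F : Type) [Field F] : Type := SpecialLinearGroup (Fin 3) F

/-- `3 x 3` matrices -/
abbrev M3 (F : Type) : Type := Matrix (Fin 3) (Fin 3) F

/-- the matrix of an element of `SL₃` -/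
def mt {F : Type} [Field F] (g : SL F) : M3 F := g.1

theorem mt_one {F : Type} [Field F] : mt (1 : SL F) = 1 := rfl

theorem mt_mul {F : Type} [Field F] (a b : SL F) : mt (a * b) = mt a * mt b := rfl

theorem mt_inv_mul {F : Type} [Field F] (a : SL F) : mt a⁻¹ * mt a = 1 := by
  rw [← mt_mul, inv_mul_cancel, mt_one]

theorem mt_mul_inv {F : Type} [Field F] (a : SL F) : mt a * mt a⁻¹ = 1 := by
  rw [← mt_mul, mul_inv_cancel, mt_one]

theorem mt_inj {F : Type} [Field F] {a b : SL F} (h : mt a = mt b) : a = b := Subtype.ext h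

/-- the conjugate transpose with respect to `x ↦ x ^ (5 ^ n)` -/
def ct {F : Type} [Field F] [CharP F 5] (n : ℕ) (A : M3 F) : M3 F :=
  (A.map (iterateFrobenius F 5 n))ᵀ

theorem ct_mul {F : Type} [Field F] [CharP F 5] (n : ℕ) (A B : M3 F) :
    ct n (A * B) = ct n B * ct n A := by
  unfold ct
  rw [Matrix.map_mul, Matrix.transpose_mul]

theorem ct_one {F : Type} [Field F] [CharP F 5] (n : ℕ) : ct n (1 : M3 F) = 1 := by
  unfold ct
  rw [Matrix.map_one _ (map_zero _) (map_one _), Matrix.transpose_one]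

theorem ct_apply {F : Type} [Field F] [CharP F 5] (n : ℕ) (A : M3 F) (i j : Fin 3) :
    ct n A i j = A j i ^ (5 ^ n) := by
  simp [ct, iterateFrobenius_def]

/-- `SU₃` of a field of characteristic 5 with respect to `∑ x i * (y i) ^ (5 ^ n)`. -/
def SU (F : Type) [Field F] [CharP F 5] (n : ℕ) : Subgroup (SL F) where
  carrier := {g | mt g * ct n (mt g) = 1}
  one_mem' := by
    show mt (1 : SL F) * ct n (mt (1 : SL F)) = 1
    rw [mt_one, ct_one, one_mul]
  mul_mem' := by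
    intro a b ha hb
    have ha' : mt a * ct n (mt a) = 1 := ha
    have hb' : mt b * ct n (mt b) = 1 := hb
    show mt (a * b) * ct n (mt (a * b)) = 1
    rw [mt_mul, ct_mul]
    calc mt a * mt b * (ct n (mt b) * ct n (mt a)) =
        mt a * (mt b * ct n (mt b)) * ct n (mt a) := by simp only [Matrix.mul_assoc]
      _ = 1 := by rw [hb', Matrix.mul_one, ha']
  inv_mem' := by
    intro a ha
    have ha' : mt a * ct n (mt a) = 1 := ha
    show mt a⁻¹ * ct n (mt a⁻¹) = 1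
    have h1 : ct n (mt a⁻¹) * ct n (mt a) = 1 := by rw [← ct_mul, mt_mul_inv, ct_one]
    have h2 : ct n (mt a⁻¹) = mt a := by
      calc ct n (mt a⁻¹) = ct n (mt a⁻¹) * (ct n (mt a) * mt a) := by
            rw [mul_eq_one_comm.1 ha', Matrix.mul_one]
        _ = mt a := by rw [← Matrix.mul_assoc, h1, Matrix.one_mul]
    rw [h2, mt_inv_mul]

/-- `SU₃(5)`, the form is `∑ x i * (y i) ^ 5`. -/
abbrev H0 (k : Type) [Field k] [CharP k 5] : Subgroup (SL k) := SU k 1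

/-- the stabiliser of the basis vector `e i` in `SU₃(5)`, a copy of `SU₂(5)` -/
def K (k : Type) [Field k] [CharP k 5] (i : Fin 3) : Subgroup (H0 k) where
  carrier := {g | mt g.1 *ᵥ (Pi.single i 1) = Pi.single i 1}
  one_mem' := by
    show mt (1 : SL k) *ᵥ (Pi.single i 1) = Pi.single i 1
    rw [mt_one, Matrix.one_mulVec]
  mul_mem' := by
    intro a b ha hb
    have ha' : mt a.1 *ᵥ (Pi.single i 1) = Pi.single i 1 := ha
    have hb' : mt b.1 *ᵥ (Pi.single i 1) = Pi.single i 1 := hb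
    show mt (a.1 * b.1) *ᵥ (Pi.single i 1) = Pi.single i 1
    rw [mt_mul, ← Matrix.mulVec_mulVec, hb', ha']
  inv_mem' := by
    intro a ha
    have ha' : mt a.1 *ᵥ (Pi.single i 1) = Pi.single i 1 := ha
    show mt (a.1)⁻¹ *ᵥ (Pi.single i 1) = Pi.single i 1
    conv_lhs => rw [← ha']
    rw [Matrix.mulVec_mulVec, mt_inv_mul, Matrix.one_mulVec]

/-- Property (T), in the form of the frozen statement. -/
def PT (G : Type) [Group G] : Prop :=
  ∀ (H : Type) [NormedAddCommGroup H] [InnerProductSpace ℂ H] [CompleteSpace H]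
    (ρ : G →* unitary (H →L[ℂ] H)),
    (∀ (S : Finset G) (ε : ℝ), 0 < ε →
      ∃ v : H, ‖v‖ = 1 ∧ ∀ s ∈ S, ‖(ρ s : H →L[ℂ] H) v - v‖ < ε) →
    ∃ v : H, v ≠ 0 ∧ ∀ g : G, (ρ g : H →L[ℂ] H) v = v

/-- CARD: `SU₂(5)` has 120 elements. -/
def S_CARD : Prop :=
  ∀ (k : Type) [Field k] [Fintype k] [CharP k 5], Fintype.card k = 25 →
    ∀ i, Nat.card (K k i) = 120

/-- ANG: the angle between the fixed spaces of `K i` and `K j`. -/
def S_ANG : Prop :=
  ∀ (k : Type) [Field k] [Fintype k] [DecidableEq k] [CharP k 5], Fintype.card k = 25 →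
    ∀ [Fintype (H0 k)] (i j : Fin 3) [Fintype (K k j)], i ≠ j →
    ∀ (V : Type) [NormedAddCommGroup V] [InnerProductSpace ℂ V] [CompleteSpace V]
      (π : H0 k →* unitary (V →L[ℂ] V)) (x : V),
      (∀ g ∈ K k i, (π g : V →L[ℂ] V) x = x) → ∑ g : H0 k, (π g : V →L[ℂ] V) x = 0 →
      ‖∑ g : K k j, (π (g : H0 k) : V →L[ℂ] V) x‖ ≤ 30 * ‖x‖

/-- TT: property (T) for a group generated by three copies of `SU₃(5)` which agree on the groups
`K i`: the copies `m` and `m'` agree on `K i` for the index `i` different from `m` and `m'`. -/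
def S_TT : Prop :=
  ∀ (k : Type) [Field k] [Fintype k] [CharP k 5], Fintype.card k = 25 →
    ∀ (Γ : Type) [Group Γ] (φ : Fin 3 → (H0 k →* Γ)),
      (∀ m m' i, i ≠ m → i ≠ m' → ∀ g ∈ K k i, φ m g = φ m' g) →
      Subgroup.closure (⋃ m, Set.range (φ m)) = ⊤ → PT Γ

/-- The base change from the orthonormal basis to the basis `w, w', e₂`, where `w = e₀ + 2 e₁` and
`w' = 3 e₀ + 4 e₁` are isotropic with `(w, w') = 1`. -/
def C (F : Type) [Field F] : M3 F := !![1, 3, 0; 2, 4, 0; 0, 0, 1]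

/-- the inverse of `C` in characteristic 5 -/
def Ci (F : Type) [Field F] : M3 F := !![3, 4, 0; 1, 2, 0; 0, 0, 1]

/-- The unipotent elements which fix `w`, in the basis `w, w', e₂`: they send `w'` to
`b w + w' + a e₂` and `e₂` to `e₂ - a ^ (5 ^ n) w`; they preserve the form if
`b + b ^ (5 ^ n) + a * a ^ (5 ^ n) = 0`. -/
def NU {F : Type} [Field F] (n : ℕ) (a b : F) : M3 F :=
  !![1, b, -a ^ (5 ^ n); 0, 1, 0; 0, a, 1]

/-- GEN: `SU₃(5)` is the normal closure of its unipotent elements which fix `w`. -/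
def S_GEN : Prop :=
  ∀ (k : Type) [Field k] [Fintype k] [CharP k 5], Fintype.card k = 25 →
    Subgroup.normalClosure {g : H0 k | ∃ a b : k, b + b ^ 5 + a * a ^ 5 = 0 ∧
      mt g.1 = C k * NU 1 a b * Ci k} = ⊤

/-- FLD: a norm one element which generates the field with `5 ^ (2 n)` elements additively by its
powers. -/
def S_FLD : Prop :=
  ∀ n : ℕ, 0 < n → ∃ u : Om, u ^ (5 ^ n + 1) = 1 ∧
    ∀ x : Om, x ^ (5 ^ (2 * n)) = x → x ∈ AddSubgroup.closure (Set.range fun j : ℕ => u ^ j)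

/-- the diagonal matrices `diag(v ^ 2, v⁻¹, v⁻¹)` and `diag(v, v, v⁻¹ ^ 2)` -/
noncomputable def D1 (v : Om) (hv : v ≠ 0) : SL Om :=
  ⟨Matrix.diagonal ![v ^ 2, v⁻¹, v⁻¹], by
    rw [Matrix.det_diagonal, Fin.prod_univ_three]
    simp only [Matrix.cons_val_zero, Matrix.cons_val_one, Matrix.cons_val]
    field_simp⟩

/-- see `D1` -/
noncomputable def D2 (v : Om) (hv : v ≠ 0) : SL Om :=
  ⟨Matrix.diagonal ![v, v, v⁻¹ ^ 2], by
    rw [Matrix.det_diagonal, Fin.prod_univ_three]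
    simp only [Matrix.cons_val_zero, Matrix.cons_val_one, Matrix.cons_val]
    field_simp⟩

/-- the conjugating elements: `D2`, `1`, `D1` -/
noncomputable def E (v : Om) (hv : v ≠ 0) : Fin 3 → SL Om := ![D2 v hv, 1, D1 v hv]

/-- the three copies of `SU₃(k)` in `SL₃(Om)` -/
noncomputable def ph {k : Type} [Field k] [CharP k 5] (f : k →+* Om) (v : Om) (hv : v ≠ 0) (m : Fin 3) :
    H0 k →* SL Om :=
  (MulAut.conj (E v hv m)).toMonoidHom.comp
    ((SpecialLinearGroup.map f).comp (H0 k).subtype)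

/-- the group generated by the three copies -/
noncomputable def Sd {k : Type} [Field k] [CharP k 5] (f : k →+* Om) (v : Om) (hv : v ≠ 0) :
    Subgroup (SL Om) :=
  Subgroup.closure (⋃ m, Set.range (ph f v hv m))

/-- COMP: the three copies agree on the groups `K i`. -/
def S_COMP : Prop :=
  ∀ (k : Type) [Field k] [CharP k 5] (f : k →+* Om) (v : Om) (hv : v ≠ 0),
    ∀ m m' i, i ≠ m → i ≠ m' → ∀ g ∈ K k i, ph f v hv m g = ph f v hv m' g

/-- UNI: properties of the group `Sd`, in the orthonormal basis; `n` is odd and `u = v ^ 3` is a norm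
one element whose powers generate the field with `5 ^ (2 n)` elements additively. -/
def S_UNI : Prop :=
  ∀ (k : Type) [Field k] [Fintype k] [CharP k 5], Fintype.card k = 25 →
    ∀ (f : k →+* Om) (n : ℕ), Odd n → ∀ (v : Om) (hv : v ≠ 0), (v ^ 3) ^ (5 ^ n + 1) = 1 →
    (∀ x : Om, x ^ (5 ^ (2 * n)) = x →
      x ∈ AddSubgroup.closure (Set.range fun j : ℕ => (v ^ 3) ^ j)) →
    (Sd f v hv ≤ SU Om n) ∧
    (∀ g ∈ Sd f v hv, ∀ i j, mt g i j ^ (5 ^ (2 * n)) =
      mt g i j) ∧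
    (∀ a b : Om, a ^ (5 ^ (2 * n)) = a → b ^ (5 ^ (2 * n)) = b →
      b + b ^ (5 ^ n) + a * a ^ (5 ^ n) = 0 →
      ∃ g ∈ Sd f v hv, mt g = C Om * NU n a b * Ci Om) ∧
    (∃ g ∈ Sd f v hv, mt g =
      C Om * !![0, 1, 0; 1, 0, 0; 0, 0, -1] * Ci Om) ∧
    (∃ g ∈ Sd f v hv, mt g =
      C Om * !![2, 0, 0; 0, 3, 0; 0, 0, 1] * Ci Om) ∧
    (∀ g ∈ Sd f v hv, g ∈ Subgroup.closure {g | ∃ h ∈ Sd f v hv, ∃ y ∈ Sd f v hv, ∃ a b : Om,
      a ^ (5 ^ (2 * n)) = a ∧ b ^ (5 ^ (2 * n)) = b ∧ b + b ^ (5 ^ n) + a * a ^ (5 ^ n) = 0 ∧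
      mt y = C Om * NU n a b * Ci Om ∧ g = h * y * h⁻¹})

/-- The rank one condition of the frozen statement. -/
def BN1 (Q : Type) [Group Q] : Prop :=
  ∃ (X : Type) (φ : Q →* Equiv.Perm X), Finite X ∧ 3 ≤ Nat.card X ∧
    (∀ a b c d : X, a ≠ b → c ≠ d → ∃ g : Q, φ g a = c ∧ φ g b = d) ∧
    ∃ (x : X) (U : Subgroup Q),
      (∀ u ∈ U, φ u x = x) ∧
      (∀ u ∈ U, ∀ h : Q, φ h x = x → h * u * h⁻¹ ∈ U) ∧
      ∀ y z : X, y ≠ x → z ≠ x → ∃! u : Q, u ∈ U ∧ φ u y = z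

/-- The image of `w = e₀ + 2 e₁`: isotropic lines of the field with `5 ^ (2 n)` elements, as points of
the projective plane over `Om`. -/
def Iso (n : ℕ) : Set (Projectivization Om (Fin 3 → Om)) :=
  {P | ∃ (x : Fin 3 → Om) (hx : x ≠ 0), (∀ i, x i ^ (5 ^ (2 * n)) = x i) ∧
    ∑ i, x i * x i ^ (5 ^ n) = 0 ∧ P = Projectivization.mk Om x hx}

/-- ACT: the action of `Sd` on the isotropic points (everything but simplicity), for an arbitrary
subgroup `S` of `SU₃` with the properties of `S_UNI`. -/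
def S_ACT : Prop :=
  ∀ (n : ℕ), 0 < n → ∀ S : Subgroup (SL Om), S ≤ SU Om n →
    (∀ g ∈ S, ∀ i j, mt g i j ^ (5 ^ (2 * n)) =
      mt g i j) →
    (∀ a b : Om, a ^ (5 ^ (2 * n)) = a → b ^ (5 ^ (2 * n)) = b →
      b + b ^ (5 ^ n) + a * a ^ (5 ^ n) = 0 →
      ∃ g ∈ S, mt g = C Om * NU n a b * Ci Om) →
    (∃ g ∈ S, mt g =
      C Om * !![0, 1, 0; 1, 0, 0; 0, 0, -1] * Ci Om) →
    ∃ (X : Type) (φ : S →* Equiv.Perm X) (x : X) (U : Subgroup S),
      (∀ g : S, g ∈ U ↔ ∃ a b : Om, a ^ (5 ^ (2 * n)) = a ∧ b ^ (5 ^ (2 * n)) = b ∧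
        b + b ^ (5 ^ n) + a * a ^ (5 ^ n) = 0 ∧
        mt g.1 = C Om * NU n a b * Ci Om) ∧
      Finite X ∧ 5 ^ n + 1 ≤ Nat.card X ∧
      (∀ a b c d : X, a ≠ b → c ≠ d → ∃ g : S, φ g a = c ∧ φ g b = d) ∧
      (∀ u ∈ U, φ u x = x) ∧
      (∀ u ∈ U, ∀ h : S, φ h x = x → h * u * h⁻¹ ∈ U) ∧
      ∀ y z : X, y ≠ x → z ≠ x → ∃! u : S, u ∈ U ∧ φ u y = z

/-- PERF: the unipotent elements are commutators in `S` (with the element `diag(2, 3, 1)`), and the
group `U` is solvable. -/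
def S_PERF : Prop :=
  ∀ (n : ℕ), 0 < n → ∀ S : Subgroup (SL Om),
    (∀ a b : Om, a ^ (5 ^ (2 * n)) = a → b ^ (5 ^ (2 * n)) = b →
      b + b ^ (5 ^ n) + a * a ^ (5 ^ n) = 0 →
      ∃ g ∈ S, mt g = C Om * NU n a b * Ci Om) →
    (∃ g ∈ S, mt g =
      C Om * !![2, 0, 0; 0, 3, 0; 0, 0, 1] * Ci Om) →
    ∀ U : Subgroup S,
    (∀ g : S, g ∈ U ↔ ∃ a b : Om, a ^ (5 ^ (2 * n)) = a ∧ b ^ (5 ^ (2 * n)) = b ∧
        b + b ^ (5 ^ n) + a * a ^ (5 ^ n) = 0 ∧
        mt g.1 = C Om * NU n a b * Ci Om) →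
    U ≤ commutator S ∧ Group.IsSolvable U

/-- SIMP: Iwasawa's criterion. -/
def S_SIMP : Prop :=
  ∀ (S : Type) [Group S] (X : Type) (φ : S →* Equiv.Perm X) (x : X) (U : Subgroup S),
    Finite X → 3 ≤ Nat.card X →
    (∀ a b c d : X, a ≠ b → c ≠ d → ∃ g : S, φ g a = c ∧ φ g b = d) →
    (∀ u ∈ U, φ u x = x) →
    (∀ u ∈ U, ∀ h : S, φ h x = x → h * u * h⁻¹ ∈ U) →
    (∀ y z : X, y ≠ x → z ≠ x → ∃! u : S, u ∈ U ∧ φ u y = z) →
    U ≤ commutator S → Group.IsSolvable U → Subgroup.normalClosure (U : Set S) = ⊤ →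
    Finite φ.range ∧ IsSimpleGroup φ.range ∧ BN1 φ.range ∧ Nat.card X ≤ Nat.card φ.range

end Pool.Agent.N993.RK
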