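import Pool.Agent.N993.RK.Stm

set_option autoImplicit false

namespace Pool.Agent.N993.RK

open Matrix

/-- the statement of S01640 -/
def Neg : Prop :=
  ¬ (∀ (G : Type) [Group G],
      (∀ (H : Type) [NormedAddCommGroup H] [InnerProductSpace ℂ H] [CompleteSpace H]
          (ρ : G →* unitary (H →L[ℂ] H)),
          (∀ (S : Finset G) (ε : ℝ), 0 < ε →
              ∃ v : H, ‖v‖ = 1 ∧ ∀ s ∈ S, ‖(ρ s : H →L[ℂ] H) v - v‖ < ε) →
          ∃ v : H, v ≠ 0 ∧ ∀ g : G, (ρ g : H →L[ℂ] H) v = v) →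
      Set.Finite {N : Subgroup G | ∃ (Q : Type) (_ : Group Q), ∃ f : G →* Q,
          Function.Surjective f ∧ f.ker = N ∧ Finite Q ∧ IsSimpleGroup Q ∧
          ∃ (X : Type) (φ : Q →* Equiv.Perm X), Finite X ∧ 3 ≤ Nat.card X ∧
            (∀ a b c d : X, a ≠ b → c ≠ d → ∃ g : Q, φ g a = c ∧ φ g b = d) ∧
            ∃ (x : X) (U : Subgroup Q),
              (∀ u ∈ U, φ u x = x) ∧
              (∀ u ∈ U, ∀ h : Q, φ h x = x → h * u * h⁻¹ ∈ U) ∧
              ∀ y z : X, y ≠ x → z ≠ x → ∃! u : Q, u ∈ U ∧ φ u y = z})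

/-- the normal closure of the unipotent elements -/
theorem ncl_aux (n : ℕ) (S : Subgroup (SL Om)) (U : Subgroup S)
    (hU : ∀ g : S, g ∈ U ↔ ∃ a b : Om, a ^ (5 ^ (2 * n)) = a ∧ b ^ (5 ^ (2 * n)) = b ∧
        b + b ^ (5 ^ n) + a * a ^ (5 ^ n) = 0 ∧ mt g.1 = C Om * NU n a b * Ci Om)
    (h6 : ∀ g ∈ S, g ∈ Subgroup.closure {g | ∃ h ∈ S, ∃ y ∈ S, ∃ a b : Om,
      a ^ (5 ^ (2 * n)) = a ∧ b ^ (5 ^ (2 * n)) = b ∧ b + b ^ (5 ^ n) + a * a ^ (5 ^ n) = 0 ∧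
      mt y = C Om * NU n a b * Ci Om ∧ g = h * y * h⁻¹}) :
    Subgroup.normalClosure (U : Set S) = ⊤ := by
  rw [eq_top_iff]
  rintro ⟨g, hg⟩ -
  have hle : Subgroup.closure {g | ∃ h ∈ S, ∃ y ∈ S, ∃ a b : Om,
      a ^ (5 ^ (2 * n)) = a ∧ b ^ (5 ^ (2 * n)) = b ∧ b + b ^ (5 ^ n) + a * a ^ (5 ^ n) = 0 ∧
      mt y = C Om * NU n a b * Ci Om ∧ g = h * y * h⁻¹} ≤
      (Subgroup.normalClosure (U : Set S)).map S.subtype := by
    rw [Subgroup.closure_le]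
    rintro x ⟨h, hh, y, hy, a, b, ha, hb, hab, hmy, rfl⟩
    have hyU : (⟨y, hy⟩ : S) ∈ U := (hU _).2 ⟨a, b, ha, hb, hab, hmy⟩
    have hcj := Subgroup.normalClosure_normal.conj_mem _
      (Subgroup.subset_normalClosure hyU) (⟨h, hh⟩ : S)
    exact ⟨_, hcj, rfl⟩
  obtain ⟨z, hz, hzg⟩ := hle (h6 g hg)
  have : z = ⟨g, hg⟩ := Subtype.ext hzg
  rw [← this]
  exact hz

/-- the quotient, for an arbitrary subgroup with the properties of `S_UNI` -/
theorem quotient_aux (hACT : S_ACT) (hPERF : S_PERF) (hSIMP : S_SIMP)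
    (n : ℕ) (hn0 : 0 < n) (S : Subgroup (SL Om)) (h1 : S ≤ SU Om n)
    (h2 : ∀ g ∈ S, ∀ i j, mt g i j ^ (5 ^ (2 * n)) = mt g i j)
    (h3 : ∀ a b : Om, a ^ (5 ^ (2 * n)) = a → b ^ (5 ^ (2 * n)) = b →
      b + b ^ (5 ^ n) + a * a ^ (5 ^ n) = 0 → ∃ g ∈ S, mt g = C Om * NU n a b * Ci Om)
    (h4 : ∃ g ∈ S, mt g = C Om * !![0, 1, 0; 1, 0, 0; 0, 0, -1] * Ci Om)
    (h5 : ∃ g ∈ S, mt g = C Om * !![2, 0, 0; 0, 3, 0; 0, 0, 1] * Ci Om)
    (h6 : ∀ g ∈ S, g ∈ Subgroup.closure {g | ∃ h ∈ S, ∃ y ∈ S, ∃ a b : Om,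
      a ^ (5 ^ (2 * n)) = a ∧ b ^ (5 ^ (2 * n)) = b ∧ b + b ^ (5 ^ n) + a * a ^ (5 ^ n) = 0 ∧
      mt y = C Om * NU n a b * Ci Om ∧ g = h * y * h⁻¹}) :
    ∃ (Q : Type) (_ : Group Q) (g : S →* Q), Function.Surjective g ∧ Finite Q ∧
      IsSimpleGroup Q ∧ BN1 Q ∧ 5 ^ n + 1 ≤ Nat.card Q := by
  obtain ⟨X, φ, x, U, hU, hfin, hcard, h2t, hfix, hnorm, hreg⟩ := hACT n hn0 S h1 h2 h3 h4
  obtain ⟨hc, hs⟩ := hPERF n hn0 S h3 h5 U hU
  have h3X : 3 ≤ Nat.card X := by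
    have : 5 ^ 1 ≤ 5 ^ n := Nat.pow_le_pow_right (by norm_num) hn0
    omega
  have hncl := ncl_aux n S U hU h6
  obtain ⟨hf, hsimp, hbn, hle⟩ := hSIMP S X φ x U hfin h3X h2t hfix hnorm hreg hc hs hncl
  exact ⟨φ.range, inferInstance, φ.rangeRestrict, φ.rangeRestrict_surjective, hf, hsimp, hbn,
    hcard.trans hle⟩

/-- the quotient of `Sd` for odd `n` -/
theorem quotient (hUNI : S_UNI) (hACT : S_ACT) (hPERF : S_PERF) (hSIMP : S_SIMP)
    {k : Type} [Field k] [Fintype k] [CharP k 5] (hk : Fintype.card k = 25) (f : k →+* Om)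
    (n : ℕ) (hn : Odd n) (v : Om) (hv : v ≠ 0) (hu : (v ^ 3) ^ (5 ^ n + 1) = 1)
    (hgen : ∀ x : Om, x ^ (5 ^ (2 * n)) = x →
      x ∈ AddSubgroup.closure (Set.range fun j : ℕ => (v ^ 3) ^ j)) :
    ∃ (Q : Type) (_ : Group Q) (g : Sd f v hv →* Q), Function.Surjective g ∧ Finite Q ∧
      IsSimpleGroup Q ∧ BN1 Q ∧ 5 ^ n + 1 ≤ Nat.card Q := by
  obtain ⟨h1, h2, h3, h4, h5, h6⟩ := hUNI k hk f n hn v hv hu hgen
  exact quotient_aux hACT hPERF hSIMP n hn.pos (Sd f v hv) h1 h2 h3 h4 h5 h6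

/-- sections of a product of groups: the projection of a generated subgroup -/
theorem exists_proj {A : Type} [Group A] {H : Type} [Group H] (Φ : Fin 3 → (H →* (ℕ → A)))
    (d : ℕ) (S : Subgroup A)
    (hS : S = Subgroup.closure (⋃ m, Set.range ((Pi.evalMonoidHom (fun _ : ℕ => A) d).comp (Φ m)))) :
    ∃ pr : Subgroup.closure (⋃ m, Set.range (Φ m)) →* S, Function.Surjective pr := by
  have h1 : (Subgroup.closure (⋃ m, Set.range (Φ m))).map (Pi.evalMonoidHom (fun _ : ℕ => A) d)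
      = S := by
    rw [MonoidHom.map_closure, hS, Set.image_iUnion]
    congr 1
    apply Set.iUnion_congr
    intro m
    rw [← Set.range_comp]
    rfl
  subst h1
  exact ⟨MonoidHom.subgroupMap _ _, MonoidHom.subgroupMap_surjective _ _⟩

/-- the main theorem from the steps -/
theorem main (hTT : S_TT) (hFLD : S_FLD) (hCOMP : S_COMP) (hUNI : S_UNI) (hACT : S_ACT)
    (hPERF : S_PERF) (hSIMP : S_SIMP) : Neg := by
  classical
  intro hall
  -- the field with 25 elements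
  let k : Type := GaloisField 5 2
  haveI : Finite k := inferInstance
  letI : Fintype k := Fintype.ofFinite k
  have hk : Fintype.card k = 25 := by
    rw [← Nat.card_eq_fintype_card]
    have := GaloisField.card 5 2 (by norm_num)
    simpa using this
  let f : k →+* Om := (IsAlgClosed.lift : k →ₐ[ZMod 5] Om).toRingHom
  -- the norm one elements
  have hex : ∀ d : ℕ, ∃ v : Om, v ≠ 0 ∧ (v ^ 3) ^ (5 ^ (2 * d + 1) + 1) = 1 ∧
      ∀ x : Om, x ^ (5 ^ (2 * (2 * d + 1))) = x →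
        x ∈ AddSubgroup.closure (Set.range fun j : ℕ => (v ^ 3) ^ j) := by
    intro d
    obtain ⟨u, hu1, hu2⟩ := hFLD (2 * d + 1) (by omega)
    obtain ⟨v, hv⟩ := IsAlgClosed.exists_pow_nat_eq u (n := 3) (by norm_num)
    refine ⟨v, ?_, by rw [hv]; exact hu1, by rw [hv]; exact hu2⟩
    rintro rfl
    rw [zero_pow (by norm_num)] at hv
    rw [← hv, zero_pow (by positivity)] at hu1
    exact zero_ne_one hu1
  choose v hv hu hg using hex
  -- the group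
  let Φ : Fin 3 → (H0 k →* (ℕ → SL Om)) := fun m => MonoidHom.pi fun d => ph f (v d) (hv d) m
  let GG : Subgroup (ℕ → SL Om) := Subgroup.closure (⋃ m, Set.range (Φ m))
  have hmem : ∀ m g, Φ m g ∈ GG := fun m g =>
    Subgroup.subset_closure (Set.mem_iUnion.2 ⟨m, g, rfl⟩)
  let φ : Fin 3 → (H0 k →* GG) := fun m => (Φ m).codRestrict GG (hmem m)
  have hcomp : ∀ m m' i, i ≠ m → i ≠ m' → ∀ g ∈ K k i, φ m g = φ m' g := by
    intro m m' i h1 h2 g hg'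
    apply Subtype.ext
    funext d
    exact hCOMP k f (v d) (hv d) m m' i h1 h2 g hg'
  have hclos : Subgroup.closure (⋃ m, Set.range (φ m)) = ⊤ := by
    have h1 : (⋃ m, Set.range (φ m)) = ((↑) : GG → (ℕ → SL Om)) ⁻¹' (⋃ m, Set.range (Φ m)) := by
      ext x
      simp only [Set.mem_iUnion, Set.mem_range, Set.mem_preimage]
      constructor
      · rintro ⟨m, g, rfl⟩
        exact ⟨m, g, rfl⟩
      · rintro ⟨m, g, h⟩
        exact ⟨m, g, Subtype.ext h⟩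
    rw [h1]
    exact Subgroup.closure_closure_coe_preimage
  have hPT : PT GG := hTT k hk GG φ hcomp hclos
  have hfin := hall GG hPT
  -- the quotients
  have hq : ∀ d : ℕ, ∃ N : Subgroup GG, (∃ (Q : Type) (_ : Group Q), ∃ f : GG →* Q,
      Function.Surjective f ∧ f.ker = N ∧ Finite Q ∧ IsSimpleGroup Q ∧ BN1 Q) ∧
      5 ^ (2 * d + 1) + 1 ≤ N.index := by
    intro d
    obtain ⟨Q, iQ, g, hgs, hQf, hQs, hQb, hQc⟩ := quotient hUNI hACT hPERF hSIMP hk f (2 * d + 1)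
      ⟨d, rfl⟩ (v d) (hv d) (hu d) (hg d)
    obtain ⟨pr, hprs⟩ : ∃ pr : GG →* Sd f (v d) (hv d), Function.Surjective pr :=
      exists_proj Φ d (Sd f (v d) (hv d)) rfl
    have hs : Function.Surjective (g.comp pr) := by
      rw [MonoidHom.coe_comp]
      exact hgs.comp hprs
    refine ⟨(g.comp pr).ker, ⟨Q, iQ, g.comp pr, hs, rfl, hQf, hQs, hQb⟩, ?_⟩
    have h2 : (g.comp pr).ker.index = Nat.card Q := by
      rw [Subgroup.index_ker, MonoidHom.range_eq_top.2 hs]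
      exact Nat.card_congr Subgroup.topEquiv.toEquiv
    rw [h2]
    exact hQc
  choose N hN1 hN2 using hq
  have hsub : Set.range N ⊆ {N : Subgroup GG | ∃ (Q : Type) (_ : Group Q), ∃ f : GG →* Q,
          Function.Surjective f ∧ f.ker = N ∧ Finite Q ∧ IsSimpleGroup Q ∧ BN1 Q} := by
    rintro _ ⟨d, rfl⟩
    exact hN1 d
  have hfr : (Set.range N).Finite := hfin.subset hsub
  have hidx : (Set.range fun d => (N d).index).Finite := by
    have : (Set.range fun d => (N d).index) = (fun M : Subgroup GG => M.index) '' Set.range N := by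
      rw [← Set.range_comp]; rfl
    rw [this]
    exact hfr.image _
  obtain ⟨B, hB⟩ := hidx.bddAbove
  have h1 := hB ⟨B, rfl⟩
  have h2 := hN2 B
  have h3 : B < 5 ^ B := Nat.lt_pow_self (by norm_num)
  have h4 : 5 ^ B ≤ 5 ^ (2 * B + 1) := Nat.pow_le_pow_right (by norm_num) (by omega)
  simp only at h1
  omega

end Pool.Agent.N993.RK
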